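import Mathlib

/-!
# A return map on a product of cyclic groups of pairwise coprime orders
-/

namespace R969.HE

open Finset

theorem crt {V : Type} [Fintype V] [DecidableEq V] (m : V → ℕ) (hm : ∀ u, NeZero (m u))
    (hc : Pairwise (Function.onFun Nat.Coprime m)) (t : ∀ u, ZMod (m u)) :
    ∃ k : ℕ, ∀ u, (k : ZMod (m u)) = t u := by
  have : NeZero (∏ i, m i) := ⟨Finset.prod_ne_zero_iff.2 fun i _ => (hm i).out⟩
  let e := ZMod.prodEquivPi m hc
  refine ⟨(e.symm t).val, fun u => ?_⟩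
  have h1 : ((e.symm t).val : ZMod (∏ i, m i)) = e.symm t := ZMod.natCast_zmod_val _
  have h2 : e ((e.symm t).val : ZMod (∏ i, m i)) = t := by rw [h1]; exact e.apply_symm_apply t
  have h3 := congrFun h2 u
  rw [map_natCast] at h3
  simpa using h3

variable {V : Type} [Fintype V] [DecidableEq V] (m : V → ℕ)

/-- The return map. -/
def ret (v : V) (a : ZMod (m v)) (τ1 τ2 : ∀ u, ZMod (m u)) (g : ∀ u, ZMod (m u)) :
    ∀ u, ZMod (m u) :=
  g + if g v = a then τ2 else τ1

variable {m}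

/-- How many times `a` is visited. -/
def cnt {v : V} (a d x : ZMod (m v)) (i : ℕ) : ℕ :=
  ((range i).filter (fun j : ℕ => x + (j : ZMod (m v)) * d = a)).card

theorem ret_iter {v : V} (a d : ZMod (m v)) (τ1 τ2 : ∀ u, ZMod (m u)) (h1 : τ1 v = d)
    (h2 : τ2 v = d) (g : ∀ u, ZMod (m u)) (i : ℕ) :
    (ret m v a τ1 τ2)^[i] g = g + i • τ1 + cnt a d (g v) i • (τ2 - τ1) := by
  induction i with
  | zero => simp [cnt]
  | succ i ih =>
    rw [Function.iterate_succ_apply', ih, ret]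
    have hv : (g + i • τ1 + cnt a d (g v) i • (τ2 - τ1)) v = g v + (i : ZMod (m v)) * d := by
      simp only [Pi.add_apply, Pi.smul_apply, Pi.sub_apply, h1, h2, sub_self, smul_zero, add_zero]
      rw [nsmul_eq_mul]
    rw [hv]
    by_cases hx : g v + (i : ZMod (m v)) * d = a
    · have hc : cnt a d (g v) (i+1) = cnt a d (g v) i + 1 := by
        unfold cnt
        rw [Finset.range_add_one, Finset.filter_insert, if_pos hx, Finset.card_insert_of_notMem]
        simp
      rw [if_pos hx, hc, add_smul, add_smul, one_smul, one_smul]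
      abel
    · have hc : cnt a d (g v) (i+1) = cnt a d (g v) i := by
        unfold cnt
        rw [Finset.range_add_one, Finset.filter_insert, if_neg hx]
      rw [if_neg hx, hc, add_smul, one_smul]
      abel

theorem cnt_full {v : V} [NeZero (m v)] (a d x : ZMod (m v)) (hd : IsUnit d) :
    cnt a d x (m v) = 1 := by
  unfold cnt
  obtain ⟨u, rfl⟩ := hd
  rw [Finset.card_eq_one]
  refine ⟨((a - x) * (u⁻¹ : (ZMod (m v))ˣ)).val, ?_⟩
  ext j
  simp only [mem_filter, mem_range, mem_singleton]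
  constructor
  · rintro ⟨hj, e⟩
    have : (j : ZMod (m v)) = (a - x) * (u⁻¹ : (ZMod (m v))ˣ) := by
      rw [← e]
      rw [add_sub_cancel_left, mul_assoc, Units.mul_inv, mul_one]
    rw [← this, ZMod.val_natCast, Nat.mod_eq_of_lt hj]
  · rintro rfl
    refine ⟨ZMod.val_lt _, ?_⟩
    rw [ZMod.natCast_zmod_val, mul_assoc, Units.inv_mul, mul_one]
    ring

theorem ret_trans (hm : ∀ u, NeZero (m u)) (hc : Pairwise (Function.onFun Nat.Coprime m))
    {v : V} (a d : ZMod (m v)) (τ1 τ2 : ∀ u, ZMod (m u)) (h1 : τ1 v = d)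
    (h2 : τ2 v = d) (hd : IsUnit d)
    (hu : ∀ u, u ≠ v → IsUnit (((m v : ZMod (m u)) - 1) * τ1 u + τ2 u))
    (g g' : ∀ u, ZMod (m u)) : ∃ k : ℕ, (ret m v a τ1 τ2)^[k] g = g' := by
  classical
  set R := ret m v a τ1 τ2 with hR
  have hper : ∀ (g : ∀ u, ZMod (m u)), R^[m v] g = g + ((m v) • τ1 + (τ2 - τ1)) := by
    intro g
    have := hm v
    rw [hR, ret_iter a d τ1 τ2 h1 h2, cnt_full a d (g v) hd, one_smul, add_assoc]
  set T : ∀ u, ZMod (m u) := (m v) • τ1 + (τ2 - τ1) with hT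
  have hper2 : ∀ (k : ℕ) (g : ∀ u, ZMod (m u)), R^[m v * k] g = g + k • T := by
    intro k
    induction k with
    | zero => intro g; simp
    | succ k ih =>
      intro g
      rw [Nat.mul_succ, Function.iterate_add_apply, ih, hper, add_smul, one_smul]
      abel
  -- first step
  obtain ⟨i, hi⟩ : ∃ i : ℕ, (R^[i] g) v = g' v := by
    obtain ⟨e, he⟩ := hd
    have := hm v
    refine ⟨((g' v - g v) * (e⁻¹ : (ZMod (m v))ˣ)).val, ?_⟩
    rw [hR, ret_iter a d τ1 τ2 h1 h2]
    simp only [Pi.add_apply, Pi.smul_apply, Pi.sub_apply, h1, h2, sub_self, smul_zero, add_zero]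
    rw [nsmul_eq_mul, ZMod.natCast_zmod_val, ← he, mul_assoc, Units.inv_mul, mul_one]
    ring
  set h := R^[i] g with hh
  have hTv : T v = 0 := by
    simp [hT, h1, h2]
  obtain ⟨k, hk⟩ := crt m hm hc (fun u => (g' u - h u) * Ring.inverse (T u))
  refine ⟨m v * k + i, ?_⟩
  rw [Function.iterate_add_apply, ← hh, hper2]
  funext u
  simp only [Pi.add_apply, Pi.smul_apply]
  rw [nsmul_eq_mul, hk u]
  by_cases huv : u = v
  · subst huv
    rw [hTv, mul_zero, add_zero, hi]
  · have hTu : IsUnit (T u) := by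
      have := hu u huv
      have e : T u = ((m v : ZMod (m u)) - 1) * τ1 u + τ2 u := by
        simp only [hT, Pi.add_apply, Pi.smul_apply, Pi.sub_apply]
        rw [nsmul_eq_mul]
        ring
      rw [e]; exact this
    rw [mul_assoc, Ring.inverse_mul_cancel _ hTu, mul_one]
    ring

/-! ### The moduli -/

/-- A rapidly increasing sequence of moduli. -/
def sq : ℕ → ℕ
  | 0 => 5
  | (k+1) => (2 * sq k).factorial + 1

theorem sq_pos (k : ℕ) : 5 ≤ sq k := by
  induction k with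
  | zero => exact le_refl _
  | succ k ih =>
    have := Nat.self_le_factorial (2 * sq k)
    show 5 ≤ (2 * sq k).factorial + 1
    omega

theorem sq_mono : Monotone sq := by
  refine monotone_nat_of_le_succ fun k => ?_
  have := Nat.self_le_factorial (2 * sq k)
  show sq k ≤ (2 * sq k).factorial + 1
  omega

theorem two_dvd (k : ℕ) : (2 : ℤ) ∣ (sq k : ℤ) - 1 := by
  cases k with
  | zero => exact ⟨2, by norm_num [sq]⟩
  | succ k =>
    have h5 := sq_pos k
    have : (2 : ℕ) ∣ (2 * sq k).factorial := Nat.dvd_factorial (by norm_num) (by omega)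
    show (2 : ℤ) ∣ (((2 * sq k).factorial + 1 : ℕ) : ℤ) - 1
    push_cast
    rw [add_sub_cancel_right]
    exact_mod_cast this

theorem dvd_of_lt {i j : ℕ} (h : i < j) {t : ℕ} (h0 : 0 < t) (ht : t ≤ 2 * sq i) :
    (t : ℤ) ∣ (sq j : ℤ) - 1 := by
  cases j with
  | zero => omega
  | succ j =>
    have hm : sq i ≤ sq j := sq_mono (by omega)
    have : t ∣ (2 * sq j).factorial := Nat.dvd_factorial h0 (by omega)
    show (t : ℤ) ∣ (((2 * sq j).factorial + 1 : ℕ) : ℤ) - 1
    push_cast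
    rw [add_sub_cancel_right]
    exact_mod_cast this

theorem cop_of_dvd {N : ℕ} {z : ℤ} (h : z ∣ (N : ℤ) - 1) : IsCoprime (N : ℤ) z := by
  obtain ⟨t, ht⟩ := h
  exact ⟨1, -t, by linarith [ht]⟩

/-- The possible differences of two labels. -/
def Sm (a : ℤ) : Prop := a = 1 ∨ a = -1 ∨ a = 2 ∨ a = -2

theorem Sm.dvd {a : ℤ} (h : Sm a) : a ∣ 2 := by
  rcases h with rfl | rfl | rfl | rfl <;> decide

theorem Sm.unit {a : ℤ} (h : Sm a) (k : ℕ) : IsUnit ((a : ℤ) : ZMod (sq k)) := by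
  rw [ZMod.coe_int_isUnit_iff_isCoprime]
  exact cop_of_dvd (h.dvd.trans (two_dvd k))

theorem mix_unit {a b : ℤ} (ha : Sm a) (hb : Sm b) {i j : ℕ} (hij : i ≠ j) :
    IsUnit ((((sq i : ZMod (sq j)) - 1) * ((a : ℤ) : ZMod (sq j)) + ((b : ℤ) : ZMod (sq j)))) := by
  have e : (((sq i : ZMod (sq j)) - 1) * ((a : ℤ) : ZMod (sq j)) + ((b : ℤ) : ZMod (sq j))) =
      ((((sq i : ℤ) - 1) * a + b : ℤ) : ZMod (sq j)) := by push_cast; ring
  rw [e, ZMod.coe_int_isUnit_iff_isCoprime]
  rcases lt_or_gt_of_ne hij with h | h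
  · -- `i < j`
    have h5 := sq_pos i
    have hz0 : ((sq i : ℤ) - 1) * a + b ≠ 0 := by
      rcases ha with rfl | rfl | rfl | rfl <;> rcases hb with rfl | rfl | rfl | rfl <;> omega
    have hz1 : (((sq i : ℤ) - 1) * a + b).natAbs ≤ 2 * sq i := by
      rcases ha with rfl | rfl | rfl | rfl <;> rcases hb with rfl | rfl | rfl | rfl <;> omega
    have hd := dvd_of_lt h (Int.natAbs_pos.2 hz0) hz1
    exact cop_of_dvd (Int.natAbs_dvd.1 hd)
  · -- `j < i`
    have h5 := sq_pos j
    have hd : (sq j : ℤ) ∣ (sq i : ℤ) - 1 := dvd_of_lt h (by omega) (by omega)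
    obtain ⟨t, ht⟩ := hd
    have hb' : IsCoprime (sq j : ℤ) b := cop_of_dvd (hb.dvd.trans (two_dvd j))
    rw [ht]
    have : (sq j : ℤ) * t * a + b = b + (sq j : ℤ) * (t * a) := by ring
    rw [this]
    exact IsCoprime.add_mul_left_right hb' (t * a)

theorem sq_coprime {i j : ℕ} (h : i < j) : Nat.Coprime (sq i) (sq j) := by
  have h5 := sq_pos i
  have hd : (sq i : ℤ) ∣ (sq j : ℤ) - 1 := dvd_of_lt h (by omega) (by omega)
  exact (Nat.isCoprime_iff_coprime.1 (cop_of_dvd hd)).symm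

end R969.HE
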