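import Pool.Agent.R969.HE.Step

/-!
# The complete bipartite graph on 3 + 3 vertices, and graphs with long extension property
-/

namespace R969.HE

open Finset

theorem ham_of_fun {V : Type} {G : SimpleGraph V} {n : ℕ} [NeZero n] (f : ZMod n → V)
    (hf : Function.Bijective f) (hadj : ∀ i, G.Adj (f i) (f (i+1))) :
    ∃ s : V → V, IsHam G s ∧ ∀ i, s (f i) = f (i+1) := by
  obtain ⟨s, hs⟩ : ∃ s : V → V, ∀ i, s (f i) = f (i+1) := by
    let e := Equiv.ofBijective f hf
    refine ⟨fun x => f (e.symm x + 1), fun i => ?_⟩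
    show f (e.symm (e i) + 1) = f (i+1)
    rw [e.symm_apply_apply]
  refine ⟨s, ⟨?_, ?_⟩, hs⟩
  · intro x
    obtain ⟨i, rfl⟩ := hf.2 x
    rw [hs]
    exact hadj i
  · have key : ∀ (k : ℕ) (i : ZMod n), s^[k] (f i) = f (i + k) := by
      intro k
      induction k with
      | zero => intro i; simp
      | succ k ih =>
        intro i
        rw [Function.iterate_succ_apply, hs, ih]
        congr 1
        push_cast
        ring
    intro x y
    obtain ⟨i, rfl⟩ := hf.2 x
    obtain ⟨j, rfl⟩ := hf.2 y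
    refine ⟨(j - i).val, ?_⟩
    rw [key, ZMod.natCast_zmod_val]
    congr 1
    ring

theorem bool_ne {a b : Bool} (h : a ≠ b) : b = !a := by
  cases a <;> cases b <;> simp_all

/-- The graph `K_{3,3}`. -/
def K33 : SimpleGraph (Bool × Fin 3) where
  Adj p q := p.1 ≠ q.1
  symm := ⟨fun _ _ h => Ne.symm h⟩
  loopless := ⟨fun _ h => h rfl⟩

theorem K33_cub : Cub K33 := by
  intro v
  rw [Set.ncard_eq_three]
  refine ⟨(!v.1, 0), (!v.1, 1), (!v.1, 2), by simp, by simp, by simp, ?_⟩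
  ext ⟨b, i⟩
  simp only [SimpleGraph.mem_neighborSet, Set.mem_insert_iff, Set.mem_singleton_iff, Prod.mk.injEq]
  show v.1 ≠ b ↔ _
  rcases v with ⟨v1, v2⟩
  fin_cases i <;> cases v1 <;> cases b <;> simp

theorem third : ∀ a b : Fin 3, ∃ c, c ≠ a ∧ c ≠ b := by decide

theorem K33_ext : Ext K33 3 := by
  intro w hw hn
  have h0 : (w 0).1 ≠ (w 1).1 := hw 0 (by omega)
  have h1 : (w 1).1 ≠ (w 2).1 := hw 1 (by omega)
  have h2 : (w 2).1 ≠ (w 3).1 := hw 2 (by omega)
  have n0 : w 0 ≠ w 2 := hn 0 (by omega)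
  have n1 : w 1 ≠ w 3 := hn 1 (by omega)
  obtain ⟨b0, a0, e0⟩ : ∃ b a, w 0 = (b, a) := ⟨_, _, rfl⟩
  obtain ⟨b1, a1, e1⟩ : ∃ b a, w 1 = (b, a) := ⟨_, _, rfl⟩
  obtain ⟨b2, a2, e2⟩ : ∃ b a, w 2 = (b, a) := ⟨_, _, rfl⟩
  obtain ⟨b3, a3, e3⟩ : ∃ b a, w 3 = (b, a) := ⟨_, _, rfl⟩
  rw [e0, e1] at h0
  rw [e1, e2] at h1
  rw [e2, e3] at h2
  rw [e0, e2] at n0
  rw [e1, e3] at n1
  simp only at h0 h1 h2
  have hb1 : b1 = !b0 := bool_ne h0
  have hb2 : b2 = b0 := by rw [bool_ne h1, hb1, Bool.not_not]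
  have hb3 : b3 = !b0 := by rw [bool_ne h2, hb2]
  clear h0 h1 h2
  subst hb1 hb2 hb3
  have n0' : a0 ≠ a2 := fun e => n0 (by rw [e])
  have n1' : a1 ≠ a3 := fun e => n1 (by rw [e])
  obtain ⟨a4, h40, h42⟩ := third a0 a2
  obtain ⟨a5, h51, h53⟩ := third a1 a3
  let f : ZMod 6 → Bool × Fin 3 :=
    fun i => (![(b2, a0), (!b2, a1), (b2, a2), (!b2, a3), (b2, a4), (!b2, a5)] : Fin 6 → _) i
  have finj : Function.Injective f := by
    intro i j hij
    have n0'' := n0'.symm
    have n1'' := n1'.symm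
    have h40' := h40.symm
    have h42' := h42.symm
    have h51' := h51.symm
    have h53' := h53.symm
    change Fin 6 at i j
    clear n0 n1 e0 e1 e2 e3 hw hn
    fin_cases i <;> fin_cases j <;>
      first
      | rfl
      | (exfalso; revert hij;
         simp [f, n0', n0'', n1', n1'', h40, h42, h51, h53, h40', h42', h51', h53'])
  have fbij : Function.Bijective f :=
    (Fintype.bijective_iff_injective_and_card f).2 ⟨finj, by simp [ZMod.card]⟩
  have fadj : ∀ i, K33.Adj (f i) (f (i+1)) := by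
    intro i
    have hi : ∀ i : ZMod 6, i = 0 ∨ i = 1 ∨ i = 2 ∨ i = 3 ∨ i = 4 ∨ i = 5 := by decide
    rcases hi i with rfl | rfl | rfl | rfl | rfl | rfl
    · show b2 ≠ !b2
      cases b2 <;> simp
    · show (!b2) ≠ b2
      cases b2 <;> simp
    · show b2 ≠ !b2
      cases b2 <;> simp
    · show (!b2) ≠ b2
      cases b2 <;> simp
    · show b2 ≠ !b2
      cases b2 <;> simp
    · show (!b2) ≠ b2
      cases b2 <;> simp
  obtain ⟨s, hs, hsf⟩ := ham_of_fun f fbij fadj
  refine ⟨s, hs, ?_⟩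
  intro i hi
  interval_cases i
  · rw [e0, show 0 + 1 = 1 from rfl, e1]; exact hsf 0
  · rw [e1, show 1 + 1 = 2 from rfl, e2]; exact hsf 1
  · rw [e2, show 2 + 1 = 3 from rfl, e3]; exact hsf 2

theorem exists_ext (l : ℕ) (hl : 3 ≤ l) :
    ∃ (V : Type) (_ : Fintype V) (_ : DecidableEq V) (G : SimpleGraph V),
      l < Fintype.card V ∧ Cub G ∧ Ext G l := by
  induction l, hl using Nat.le_induction with
  | base => exact ⟨Bool × Fin 3, inferInstance, inferInstance, K33, by simp, K33_cub, K33_ext⟩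
  | succ l hl ih =>
    obtain ⟨V, i1, i2, G, h1, h2, h3⟩ := ih
    exact step hl h1 h2 h3

theorem nbr_ne {V : Type} {G : SimpleGraph V} (hG : Cub G) (x y : V) :
    ∃ z, G.Adj x z ∧ z ≠ y := by
  obtain ⟨a, b, d, hab, had, hbd, hs⟩ := Set.ncard_eq_three.1 (hG x)
  have ha : a ∈ G.neighborSet x := by rw [hs]; simp
  have hb : b ∈ G.neighborSet x := by rw [hs]; simp
  by_cases h : a = y
  · exact ⟨b, hb, fun e => hab (h.trans e.symm)⟩
  · exact ⟨a, ha, h⟩

theorem Ext.pred {V : Type} {G : SimpleGraph V} (hG : Cub G) {l : ℕ}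
    (h : Ext G (l+1)) : Ext G l := by
  intro w hw hn
  obtain ⟨z, hz1, hz2⟩ := nbr_ne hG (w l) (w (l-1))
  have k1 : ∀ i < l + 1, G.Adj ((fun i => if i ≤ l then w i else z) i)
      ((fun i => if i ≤ l then w i else z) (i+1)) := by
    intro i hi
    rcases Nat.lt_or_ge i l with h1 | h1
    · simpa [show i ≤ l by omega, show i + 1 ≤ l by omega] using hw i h1
    · have : i = l := by omega
      subst this
      simpa using hz1
  have k2 : ∀ i, i + 1 < l + 1 → (fun i => if i ≤ l then w i else z) i ≠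
      (fun i => if i ≤ l then w i else z) (i+2) := by
    intro i hi
    rcases Nat.lt_or_ge (i+1) l with h1 | h1
    · simpa [show i ≤ l by omega, show i + 2 ≤ l by omega] using hn i h1
    · have : i = l - 1 := by omega
      subst this
      simpa [show l - 1 ≤ l by omega, show ¬ (l - 1 + 2 ≤ l) by omega] using hz2.symm
  obtain ⟨s, hs, e⟩ := h _ k1 k2
  refine ⟨s, hs, fun i hi => ?_⟩
  have := e i (by omega)
  simpa [show i ≤ l by omega, show i + 1 ≤ l by omega] using this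

theorem Ext.mono {V : Type} {G : SimpleGraph V} (hG : Cub G) {l l' : ℕ} (hl : l' ≤ l)
    (h : Ext G l) : Ext G l' := by
  induction l, hl using Nat.le_induction with
  | base => exact h
  | succ l hl ih => exact ih (Ext.pred hG h)

end R969.HE
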