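import Pool.Agent.R969.HE.Base

/-!
# From successor functions to Hamiltonian cycles as walks
-/

namespace R969.HE

open Finset SimpleGraph

variable {V : Type} {G : SimpleGraph V}

/-- The walk following a successor function. -/
def itw {s : V → V} (hs : ∀ x, G.Adj x (s x)) : (i : ℕ) → (a : V) → G.Walk a (s^[i] a)
  | 0, a => Walk.nil' a
  | i+1, a => (Walk.cons (hs a) (itw hs i (s a))).copy rfl (Function.iterate_succ_apply s i a).symm

theorem itw_support {s : V → V} (hs : ∀ x, G.Adj x (s x)) (i : ℕ) (a : V) :
    (itw hs i a).support = (List.range (i+1)).map (fun j => s^[j] a) := by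
  induction i generalizing a with
  | zero => simp [itw]
  | succ i ih =>
    rw [itw, Walk.support_copy, Walk.support_cons, ih, List.range_succ_eq_map (n := i+1), List.map_cons, List.map_map]
    rfl

theorem itw_edges {s : V → V} (hs : ∀ x, G.Adj x (s x)) (i : ℕ) (a : V) :
    (itw hs i a).edges = (List.range i).map (fun j => s(s^[j] a, s^[j+1] a)) := by
  induction i generalizing a with
  | zero => simp [itw]
  | succ i ih =>
    rw [itw, Walk.edges_copy, Walk.edges_cons, ih, List.range_succ_eq_map, List.map_cons, List.map_map]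
    rfl

theorem itw_length {s : V → V} (hs : ∀ x, G.Adj x (s x)) (i : ℕ) (a : V) :
    (itw hs i a).length = i := by
  induction i generalizing a with
  | zero => rfl
  | succ i ih => rw [itw, Walk.length_copy, Walk.length_cons, ih]

theorem exists_cycle [Fintype V] [DecidableEq V] {s : V → V} (h : IsHam G s)
    (hn : 3 ≤ Fintype.card V) (a : V) :
    ∃ C : G.Walk a a, C.IsHamiltonianCycle ∧ ∀ x, s(x, s x) ∈ C.edges := by
  obtain ⟨k, hk⟩ : ∃ k, Fintype.card V = k + 1 := ⟨Fintype.card V - 1, by omega⟩
  have t := h.trans
  have hcl : s^[k] (s a) = a := by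
    rw [← Function.iterate_succ_apply, Nat.succ_eq_add_one, ← hk, t.card_iter]
  set P : G.Walk (s a) a := (itw h.adj k (s a)).copy rfl hcl with hP
  have hPs : P.support = (List.range (k+1)).map (fun j => s^[j] (s a)) := by
    rw [hP, Walk.support_copy, itw_support]
  have hPe : P.edges = (List.range k).map (fun j => s(s^[j] (s a), s^[j+1] (s a))) := by
    rw [hP, Walk.edges_copy, itw_edges]
  have hPl : P.length = k := by rw [hP, Walk.length_copy, itw_length]
  have hPath : P.IsPath := by
    rw [Walk.isPath_def, hPs]
    refine List.Nodup.map_on ?_ List.nodup_range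
    intro i hi j hj e
    exact t.injOn (s a) (by rw [hk]; exact List.mem_range.1 hi)
      (by rw [hk]; exact List.mem_range.1 hj) e
  refine ⟨Walk.cons (h.adj a) P, ?_, ?_⟩
  · rw [Walk.isHamiltonianCycle_iff_isCycle_and_length_eq, Walk.length_cons, hPl, hk]
    refine ⟨?_, rfl⟩
    rw [Walk.cons_isCycle_iff]
    refine ⟨hPath, ?_⟩
    rw [hPe]
    intro hmem
    obtain ⟨j, hj, e⟩ := List.mem_map.1 hmem
    have hj' := List.mem_range.1 hj
    rcases Sym2.eq_iff.1 e with ⟨e1, e2⟩ | ⟨e1, e2⟩
    · -- `s^[j+1] a = a`
      rw [← Function.iterate_succ_apply] at e1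
      exact t.ne a (by omega) (by omega) e1
    · -- `s^[j] (s a) = s a` and `s^[j+2] a = a`
      rcases Nat.eq_zero_or_pos j with h0 | h0
      · subst h0
        exact t.ne a (i := 2) (by omega) (by omega) e2
      · exact t.ne (s a) h0 (by omega) e1
  · intro x
    obtain ⟨i, hi, e⟩ := t.exists_lt a x
    rw [Walk.edges_cons, List.mem_cons]
    rcases Nat.eq_zero_or_pos i with h0 | h0
    · left
      subst h0
      rw [← e]
      rfl
    · right
      rw [hPe, List.mem_map]
      obtain ⟨j, rfl⟩ : ∃ j, i = j + 1 := ⟨i - 1, by omega⟩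
      refine ⟨j, List.mem_range.2 (by omega), ?_⟩
      rw [← e, ← Function.iterate_succ_apply, ← Function.iterate_succ_apply' s (j+1) a]
      rfl

theorem edges_follow {s : V → V} {x y : V} (P : G.Walk x y)
    (h : ∀ i < P.length, s (P.getVert i) = P.getVert (i+1)) :
    ∀ e ∈ P.edges, ∃ u, e = s(u, s u) := by
  induction P with
  | nil => intro e he; simp at he
  | @cons u v w hadj p ih =>
    intro e he
    rw [Walk.edges_cons, List.mem_cons] at he
    rcases he with rfl | he
    · refine ⟨u, ?_⟩
      have := h 0 (by simp)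
      simp only [Walk.getVert_zero, zero_add, Walk.getVert_cons_succ] at this
      rw [this]
    · refine ih ?_ e he
      intro i hi
      have := h (i+1) (by rw [Walk.length_cons]; omega)
      simpa using this

end R969.HE
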