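import Mathlib

/-!
# Transitive self maps of a finite type
-/

namespace R969.HE

open Finset

/-- A self map all of whose forward orbits are everything. -/
def Trans {V : Type} (s : V → V) : Prop := ∀ x y, ∃ i : ℕ, s^[i] x = y

theorem Trans.surj {V : Type} {s : V → V} (h : Trans s) : Function.Surjective s := by
  intro y
  obtain ⟨i, hi⟩ := h (s y) y
  refine ⟨s^[i] y, ?_⟩
  rw [← Function.iterate_succ_apply' s i y, Function.iterate_succ_apply, hi]

variable {V : Type} [Fintype V] [DecidableEq V]

theorem Trans.bij {s : V → V} (h : Trans s) : Function.Bijective s :=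
  ⟨Finite.injective_iff_surjective.2 h.surj, h.surj⟩

/-- The permutation of a transitive map. -/
noncomputable def Trans.perm {s : V → V} (h : Trans s) : Equiv.Perm V :=
  Equiv.ofBijective s h.bij

theorem Trans.perm_apply {s : V → V} (h : Trans s) (x : V) : h.perm x = s x := rfl

theorem Trans.perm_pow {s : V → V} (h : Trans s) (i : ℕ) (x : V) : (h.perm ^ i) x = s^[i] x := by
  induction i generalizing x with
  | zero => rfl
  | succ i ih =>
    rw [pow_succ, Equiv.Perm.mul_apply, ih, Function.iterate_succ_apply]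
    rfl

theorem Trans.cyc {s : V → V} (h : Trans s) :
    h.perm.IsCycleOn ((univ : Finset V) : Set V) := by
  refine ⟨?_, ?_⟩
  · simpa using Equiv.bijective h.perm
  · intro x _ y _
    obtain ⟨i, hi⟩ := h x y
    refine ⟨(i : ℤ), ?_⟩
    rw [zpow_natCast, h.perm_pow, hi]

theorem Trans.fix_iff {s : V → V} (h : Trans s) (x : V) (i : ℕ) :
    s^[i] x = x ↔ Fintype.card V ∣ i := by
  rw [← h.perm_pow, h.cyc.pow_apply_eq (mem_univ x), Finset.card_univ]

theorem Trans.card_iter {s : V → V} (h : Trans s) (x : V) :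
    s^[Fintype.card V] x = x := (h.fix_iff x _).2 dvd_rfl

theorem Trans.ne {s : V → V} (h : Trans s) (x : V) {i : ℕ} (h0 : 0 < i)
    (hi : i < Fintype.card V) : s^[i] x ≠ x := by
  intro e
  have := Nat.le_of_dvd h0 ((h.fix_iff x i).1 e)
  omega

theorem Trans.exists_lt {s : V → V} (h : Trans s) (x y : V) :
    ∃ i < Fintype.card V, s^[i] x = y := by
  obtain ⟨i, hi, e⟩ := h.cyc.exists_pow_eq (mem_univ x) (mem_univ y)
  rw [Finset.card_univ] at hi
  exact ⟨i, hi, by rw [← h.perm_pow, e]⟩

theorem Trans.injOn {s : V → V} (h : Trans s) (x : V) {i j : ℕ}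
    (hi : i < Fintype.card V) (hj : j < Fintype.card V) (e : s^[i] x = s^[j] x) : i = j := by
  wlog hij : i < j generalizing i j
  · rcases Nat.lt_or_ge i j with hl | hl
    · exact absurd hl hij
    · rcases Nat.lt_or_ge j i with h2 | h2
      · exact (this hj hi e.symm h2).symm
      · omega
  exfalso
  have e2 : s^[j - i] (s^[i] x) = s^[i] x := by
    rw [← Function.iterate_add_apply, Nat.sub_add_cancel hij.le, e]
  exact h.ne (s^[i] x) (by omega) (by omega) e2

theorem Trans.sum_eq {s : V → V} (h : Trans s) (x : V) {M : Type*} [AddCommMonoid M] (f : V → M) :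
    ∑ i ∈ range (Fintype.card V), f (s^[i] x) = ∑ y, f y := by
  refine Finset.sum_bij (fun i _ => s^[i] x) (fun i _ => mem_univ _) ?_ ?_ ?_
  · intro i hi j hj e
    exact h.injOn x (mem_range.1 hi) (mem_range.1 hj) e
  · intro y _
    obtain ⟨i, hi, e⟩ := h.exists_lt x y
    exact ⟨i, mem_range.2 hi, e⟩
  · intro i _
    rfl

end R969.HE
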