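import Pool.Agent.R969.HE.Orbit
import Pool.Agent.R969.HE.Alg

/-!
# Cyclic covers of cubic graphs and Hamiltonian cycles through walks
-/

namespace R969.HE

open Finset

/-- `s` is the successor function of an (oriented) Hamiltonian cycle. -/
structure IsHam {V : Type} (G : SimpleGraph V) (s : V → V) : Prop where
  adj : ∀ x, G.Adj x (s x)
  trans : Trans s

/-- Every non-backtracking walk with `l` edges lies on a Hamiltonian cycle. -/
def Ext {V : Type} (G : SimpleGraph V) (l : ℕ) : Prop :=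
  ∀ w : ℕ → V, (∀ i < l, G.Adj (w i) (w (i+1))) → (∀ i, i + 1 < l → w i ≠ w (i+2)) →
    ∃ s : V → V, IsHam G s ∧ ∀ i < l, s (w i) = w (i+1)

/-- Cubic graphs. -/
def Cub {V : Type} (G : SimpleGraph V) : Prop := ∀ v, (G.neighborSet v).ncard = 3

theorem labels {V : Type} {G : SimpleGraph V} (hG : Cub G) :
    ∃ c : V → V → ℤ, ∀ u x y, G.Adj u x → G.Adj u y → x ≠ y → Sm (c u x - c u y) := by
  classical
  have : ∀ u, ∃ c : V → ℤ, ∀ x y, G.Adj u x → G.Adj u y → x ≠ y → Sm (c x - c y) := by
    intro u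
    obtain ⟨a, b, d, hab, had, hbd, hs⟩ := Set.ncard_eq_three.1 (hG u)
    refine ⟨fun x => if x = a then 0 else if x = b then 1 else -1, ?_⟩
    intro x y hx hy hxy
    have hx' : x ∈ G.neighborSet u := hx
    have hy' : y ∈ G.neighborSet u := hy
    rw [hs] at hx' hy'
    simp only [Set.mem_insert_iff, Set.mem_singleton_iff] at hx' hy'
    unfold Sm
    rcases hx' with rfl | rfl | rfl <;> rcases hy' with rfl | rfl | rfl <;>
      simp_all [Ne.symm hab, Ne.symm had, Ne.symm hbd]
  choose c hc using this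
  exact ⟨c, fun u x y => hc u x y⟩

section

variable {V : Type} [DecidableEq V] (m : V → ℕ) (c : V → V → ℤ)

/-- The voltage of the arc from `x` to `y`. -/
def volt (x y : V) : ∀ u, ZMod (m u) := fun u =>
  (if x = u then ((c u y : ℤ) : ZMod (m u)) else 0) -
    (if y = u then ((c u x : ℤ) : ZMod (m u)) else 0)

theorem volt_symm (x y : V) : volt m c y x = - volt m c x y := by
  funext u
  simp only [volt, Pi.neg_apply]
  ring

theorem volt_zero {x y u : V} (hx : x ≠ u) (hy : y ≠ u) : volt m c x y u = 0 := by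
  simp [volt, hx, hy]

theorem volt_left {y u : V} (hy : y ≠ u) : volt m c u y u = ((c u y : ℤ) : ZMod (m u)) := by
  simp [volt, hy]

theorem volt_right {x u : V} (hx : x ≠ u) : volt m c x u u = -((c u x : ℤ) : ZMod (m u)) := by
  simp [volt, hx]

/-- The cover. -/
def cover (G : SimpleGraph V) : SimpleGraph (V × (∀ u, ZMod (m u))) where
  Adj p q := G.Adj p.1 q.1 ∧ q.2 = p.2 + volt m c p.1 q.1
  symm := ⟨by
    rintro p q ⟨h1, h2⟩
    refine ⟨h1.symm, ?_⟩
    rw [h2, volt_symm m c p.1 q.1]
    abel⟩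
  loopless := ⟨fun p h => G.loopless.irrefl p.1 h.1⟩

theorem cover_cub {G : SimpleGraph V} (hG : Cub G) : Cub (cover m c G) := by
  rintro ⟨x, f⟩
  have : (cover m c G).neighborSet (x, f) = (fun y => (y, f + volt m c x y)) '' G.neighborSet x := by
    ext ⟨y, g⟩
    simp only [SimpleGraph.mem_neighborSet, Set.mem_image, cover, Prod.mk.injEq]
    constructor
    · rintro ⟨h1, h2⟩
      exact ⟨y, h1, rfl, h2.symm⟩
    · rintro ⟨z, h1, rfl, h2⟩
      exact ⟨h1, h2.symm⟩
  rw [this, Set.ncard_image_of_injective _ (fun a b h => (Prod.mk.injEq _ _ _ _ ▸ h).1)]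
  exact hG x

/-- Partial sums of voltages. -/
def A (s : V → V) (v : V) (i : ℕ) : ∀ u, ZMod (m u) :=
  ∑ j ∈ range i, volt m c (s^[j] v) (s^[j+1] v)

theorem A_succ (s : V → V) (v : V) (i : ℕ) :
    A m c s v (i+1) = A m c s v i + volt m c (s^[i] v) (s^[i+1] v) := by
  unfold A
  rw [Finset.sum_range_succ]

theorem A_full [Fintype V] {s : V → V} (h : Trans s) (v : V) {u p : V} (hp : s p = u) :
    A m c s v (Fintype.card V) u = ((c u (s u) - c u p : ℤ) : ZMod (m u)) := by
  have h1 : A m c s v (Fintype.card V) = ∑ x, volt m c x (s x) := by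
    rw [← h.sum_eq v (fun x => volt m c x (s x))]
    unfold A
    refine Finset.sum_congr rfl fun j _ => ?_
    rw [Function.iterate_succ_apply']
  rw [h1, Finset.sum_apply]
  simp only [volt]
  rw [Finset.sum_sub_distrib]
  have e1 : ∑ x, (if x = u then ((c u (s x) : ℤ) : ZMod (m u)) else 0) =
      ((c u (s u) : ℤ) : ZMod (m u)) := by
    rw [Finset.sum_ite_eq' univ u (fun x => ((c u (s x) : ℤ) : ZMod (m u)))]
    simp
  have e2 : ∑ x, (if s x = u then ((c u x : ℤ) : ZMod (m u)) else 0) =
      ((c u p : ℤ) : ZMod (m u)) := by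
    have : ∀ x, (if s x = u then ((c u x : ℤ) : ZMod (m u)) else 0) =
        (if x = p then ((c u x : ℤ) : ZMod (m u)) else 0) := by
      intro x
      by_cases hx : x = p
      · rw [if_pos hx, if_pos (by rw [hx, hp])]
      · rw [if_neg hx, if_neg]
        intro e
        exact hx (h.bij.1 (e.trans hp.symm))
    rw [Finset.sum_congr rfl fun x _ => this x,
      Finset.sum_ite_eq' univ p (fun x => ((c u x : ℤ) : ZMod (m u)))]
    simp
  rw [e1, e2]
  push_cast
  ring

theorem A_v [Fintype V] {s : V → V} (h : Trans s) (v : V) {i : ℕ} (h1 : 1 ≤ i)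
    (h2 : i < Fintype.card V) : A m c s v i v = ((c v (s v) : ℤ) : ZMod (m v)) := by
  induction i with
  | zero => omega
  | succ i ih =>
    rw [A_succ, Pi.add_apply]
    rcases Nat.eq_zero_or_pos i with h0 | h0
    · subst h0
      have : s v ≠ v := h.ne v (i := 1) (by omega) h2
      simp only [A, Finset.range_zero, Finset.sum_empty, Pi.zero_apply, zero_add,
        Function.iterate_zero, id, Function.iterate_one]
      rw [volt_left m c this]
    · rw [ih h0 (by omega), volt_zero m c (h.ne v h0 (by omega)) (h.ne v (by omega) h2), add_zero]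

/-- The mixed successor function. -/
def F (v : V) (q : ZMod (m v)) (s1 s2 : V → V) (z : V × (∀ u, ZMod (m u))) :
    V × (∀ u, ZMod (m u)) :=
  if z.1 ≠ v ∧ z.2 v = q then (s2 z.1, z.2 + volt m c z.1 (s2 z.1))
  else (s1 z.1, z.2 + volt m c z.1 (s1 z.1))

variable {m c}

theorem F_adj {G : SimpleGraph V} {v : V} {q : ZMod (m v)} {s1 s2 : V → V}
    (h1 : ∀ x, G.Adj x (s1 x)) (h2 : ∀ x, G.Adj x (s2 x)) (z : V × (∀ u, ZMod (m u))) :
    (cover m c G).Adj z (F m c v q s1 s2 z) := by
  unfold F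
  split_ifs
  · exact ⟨h2 _, rfl⟩
  · exact ⟨h1 _, rfl⟩

theorem F_iter [Fintype V] {v : V} {q : ZMod (m v)} {s1 s2 : V → V}
    (t1 : Trans s1) (t2 : Trans s2) (e12 : s1 v = s2 v) (g : ∀ u, ZMod (m u)) (s : V → V)
    (hs : s = if g v + ((c v (s1 v) : ℤ) : ZMod (m v)) = q then s2 else s1)
    {i : ℕ} (hi : i ≤ Fintype.card V) :
    (F m c v q s1 s2)^[i] (v, g) = (s^[i] v, g + A m c s v i) := by
  have hsv : s v = s1 v := by
    rw [hs]; split_ifs
    · exact e12.symm
    · rfl
  have ts : Trans s := by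
    rw [hs]; split_ifs
    · exact t2
    · exact t1
  induction i with
  | zero => simp [A]
  | succ i ih =>
    rw [Function.iterate_succ_apply', ih (by omega), A_succ]
    rcases Nat.eq_zero_or_pos i with h0 | h0
    · subst h0
      simp only [Function.iterate_zero, id, Function.iterate_one, zero_add]
      unfold F
      rw [if_neg (by simp), hsv]
      simp [A]
    · have hne := ts.ne v h0 (show i < Fintype.card V by omega)
      have hv : (g + A m c s v i) v = g v + ((c v (s1 v) : ℤ) : ZMod (m v)) := by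
        rw [Pi.add_apply, A_v m c ts v h0 (by omega), hsv]
      unfold F
      simp only [hv]
      by_cases hq : g v + ((c v (s1 v) : ℤ) : ZMod (m v)) = q
      · rw [if_pos ⟨hne, hq⟩]
        rw [if_pos hq] at hs
        subst hs
        rw [Function.iterate_succ_apply', add_assoc]
      · rw [if_neg (fun h => hq h.2)]
        rw [if_neg hq] at hs
        subst hs
        rw [Function.iterate_succ_apply', add_assoc]

theorem F_trans [Fintype V] (hm : ∀ u, NeZero (m u))
    (hc : Pairwise (Function.onFun Nat.Coprime m))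
    {v : V} {q : ZMod (m v)} {s1 s2 : V → V}
    (t1 : Trans s1) (t2 : Trans s2) (e12 : s1 v = s2 v)
    (hd0 : A m c s1 v (Fintype.card V) v = A m c s2 v (Fintype.card V) v)
    (hd : IsUnit (A m c s1 v (Fintype.card V) v))
    (hu : ∀ u, u ≠ v → IsUnit (((m v : ZMod (m u)) - 1) * A m c s1 v (Fintype.card V) u +
      A m c s2 v (Fintype.card V) u)) : Trans (F m c v q s1 s2) := by
  set n := Fintype.card V with hn
  set Fm := F m c v q s1 s2 with hFm
  set a : ZMod (m v) := q - ((c v (s1 v) : ℤ) : ZMod (m v)) with ha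
  set R := ret m v a (A m c s1 v n) (A m c s2 v n) with hR
  have hret : ∀ g, Fm^[n] (v, g) = (v, R g) := by
    intro g
    rw [hFm, F_iter t1 t2 e12 g _ rfl le_rfl, hR]
    by_cases hq : g v + ((c v (s1 v) : ℤ) : ZMod (m v)) = q
    · have hga : g v = a := by rw [ha, ← hq]; ring
      rw [if_pos hq, t2.card_iter, ret, if_pos hga]
    · have hga : ¬ g v = a := by
        intro e; apply hq; rw [e, ha]; ring
      rw [if_neg hq, t1.card_iter, ret, if_neg hga]
  have hret2 : ∀ (k : ℕ) g, Fm^[n * k] (v, g) = (v, R^[k] g) := by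
    intro k
    induction k with
    | zero => intro g; rfl
    | succ k ih =>
      intro g
      rw [Nat.mul_succ, Function.iterate_add_apply, hret, ih, Function.iterate_succ_apply]
  have hcov : ∀ z, ∃ g, ∃ i ≤ n, Fm^[i] (v, g) = z := by
    rintro ⟨x, f⟩
    by_cases hx : x = v
    · subst hx
      exact ⟨f, 0, Nat.zero_le _, rfl⟩
    · obtain ⟨s, hs⟩ : ∃ s : V → V, s = if f v = q then s2 else s1 := ⟨_, rfl⟩
      have hsv : s v = s1 v := by
        rw [hs]; split_ifs
        · exact e12.symm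
        · rfl
      have ts : Trans s := by
        rw [hs]; split_ifs
        · exact t2
        · exact t1
      obtain ⟨i, hi, e⟩ := ts.exists_lt v x
      have hi1 : 1 ≤ i := by
        rcases Nat.eq_zero_or_pos i with h0 | h0
        · subst h0; exact absurd e.symm hx
        · exact h0
      refine ⟨f - A m c s v i, i, hi.le, ?_⟩
      have hv : (f - A m c s v i) v + ((c v (s1 v) : ℤ) : ZMod (m v)) = f v := by
        rw [Pi.sub_apply, A_v m c ts v hi1 hi, hsv]; ring
      rw [hFm, F_iter t1 t2 e12 (f - A m c s v i) s (by rw [hv]; exact hs) hi.le, e]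
      congr 1
      abel
  intro z z'
  obtain ⟨g, i, hi, e⟩ := hcov z
  obtain ⟨g', i', hi', e'⟩ := hcov z'
  obtain ⟨k, hk⟩ := ret_trans hm hc a (A m c s1 v n v) (A m c s1 v n) (A m c s2 v n) rfl
    hd0.symm hd hu (R g) g'
  refine ⟨i' + (n * k + (n - i)), ?_⟩
  rw [Function.iterate_add_apply, Function.iterate_add_apply, ← e,
    ← Function.iterate_add_apply Fm (n - i) i, Nat.sub_add_cancel hi, hret, hret2]
  rw [← hR] at hk
  rw [hk, e']

theorem step_aux [Fintype V] {G : SimpleGraph V} {l : ℕ} (hl : 3 ≤ l)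
    (hn : l < Fintype.card V) (hE : Ext G l) (hm : ∀ u, NeZero (m u))
    (hc : Pairwise (Function.onFun Nat.Coprime m)) (hm1 : ∀ u, 1 < m u)
    (hlab : ∀ u x y, G.Adj u x → G.Adj u y → x ≠ y → Sm (c u x - c u y))
    (hun : ∀ u (a : ℤ), Sm a → IsUnit ((a : ℤ) : ZMod (m u)))
    (hmix : ∀ u v (a b : ℤ), v ≠ u → Sm a → Sm b →
      IsUnit (((m v : ZMod (m u)) - 1) * ((a : ℤ) : ZMod (m u)) + ((b : ℤ) : ZMod (m u)))) :
    Ext (cover m c G) (l+1) := by
  intro W hW hWn
  -- the projected walk
  have hadj : ∀ i < l + 1, G.Adj (W i).1 (W (i+1)).1 := fun i hi => (hW i hi).1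
  have hf : ∀ i < l + 1, (W (i+1)).2 = (W i).2 + volt m c (W i).1 (W (i+1)).1 :=
    fun i hi => (hW i hi).2
  have hnb : ∀ i, i + 1 < l + 1 → (W i).1 ≠ (W (i+2)).1 := by
    intro i hi e
    apply hWn i hi
    refine Prod.ext e ?_
    have h1 := hf i (by omega)
    have h2 := hf (i+1) (by omega)
    rw [show i + 1 + 1 = i + 2 from rfl] at h2
    rw [h2, h1, ← e, volt_symm m c (W i).1 (W (i+1)).1]
    abel
  obtain ⟨s1, hs1, hw1⟩ := hE (fun i => (W i).1) (fun i hi => hadj i (by omega))
    (fun i hi => hnb i (by omega))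
  obtain ⟨s2, hs2, hw2⟩ := hE (fun i => (W (i+1)).1) (fun i hi => hadj (i+1) (by omega))
    (fun i hi => hnb (i+1) (by omega))
  set v := (W 2).1 with hv
  have a1 : s1 (W 1).1 = v := hw1 1 (by omega)
  have a2 : s2 (W 1).1 = v := hw2 0 (by omega)
  have b1 : s1 v = (W 3).1 := hw1 2 (by omega)
  have b2 : s2 v = (W 3).1 := hw2 1 (by omega)
  have t1 := hs1.trans
  have t2 := hs2.trans
  have hne0 : (W 0).1 ≠ v := hnb 0 (by omega)
  have hne1 : (W 1).1 ≠ v := (hadj 1 (by omega)).ne
  have hne3 : (W 3).1 ≠ v := (hadj 2 (by omega)).ne'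
  have hnei : ∀ i, 3 ≤ i → i ≤ l → (W i).1 ≠ v := by
    intro i h3 hi
    have key : ∀ j, j + 2 ≤ l → (W (j+2)).1 = s1^[j] v := by
      intro j
      induction j with
      | zero => intro _; rfl
      | succ j ih =>
        intro hj
        rw [Function.iterate_succ_apply', ← ih (by omega), hw1 (j+2) (by omega)]
    obtain ⟨j, rfl⟩ : ∃ j, i = j + 2 := ⟨i - 2, by omega⟩
    rw [key j hi]
    exact t1.ne v (by omega) (by omega)
  -- the label difference at `v`
  have hS : Sm (c v (W 3).1 - c v (W 1).1) :=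
    hlab v _ _ (hadj 2 (by omega)) (hadj 1 (by omega)).symm (hnb 1 (by omega)).symm
  have hA1 : A m c s1 v (Fintype.card V) v = ((c v (W 3).1 - c v (W 1).1 : ℤ) : ZMod (m v)) := by
    rw [A_full m c t1 v a1, b1]
  have hA2 : A m c s2 v (Fintype.card V) v = ((c v (W 3).1 - c v (W 1).1 : ℤ) : ZMod (m v)) := by
    rw [A_full m c t2 v a2, b2]
  have hgen : ∀ (s : V → V), IsHam G s → ∀ u, ∃ a : ℤ, Sm a ∧
      A m c s v (Fintype.card V) u = ((a : ℤ) : ZMod (m u)) := by
    intro s hs u
    obtain ⟨p, hp⟩ := hs.trans.surj u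
    refine ⟨c u (s u) - c u p, ?_, A_full m c hs.trans v hp⟩
    refine hlab u _ _ (hs.adj u) ?_ ?_
    · have := hs.adj p
      rw [hp] at this
      exact this.symm
    · intro e
      have h2 : s^[2] u = u := by
        rw [Function.iterate_succ_apply, Function.iterate_one, e, hp]
      exact hs.trans.ne u (by omega) (by omega) h2
  set q : ZMod (m v) := (W 3).2 v with hq
  have hT : Trans (F m c v q s1 s2) := by
    refine F_trans hm hc t1 t2 (b1.trans b2.symm) (hA1.trans hA2.symm) ?_ ?_
    · rw [hA1]; exact hun v _ hS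
    · intro u hu
      obtain ⟨a, ha, ea⟩ := hgen s1 hs1 u
      obtain ⟨b, hb, eb⟩ := hgen s2 hs2 u
      rw [ea, eb]
      exact hmix u v a b hu.symm ha hb
  refine ⟨F m c v q s1 s2, ⟨fun z => F_adj hs1.adj hs2.adj z, hT⟩, ?_⟩
  -- the walk follows the cycle
  have hq0 : (W 0).2 v ≠ q := by
    intro e
    have h1 := congrFun (hf 0 (by omega)) v
    have h2 := congrFun (hf 1 (by omega)) v
    have h3 := congrFun (hf 2 (by omega)) v
    simp only [Pi.add_apply, zero_add, show 1 + 1 = 2 from rfl, show 2 + 1 = 3 from rfl,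
      ← hv] at h1 h2 h3
    rw [volt_zero m c hne0 hne1] at h1
    rw [volt_right m c hne1] at h2
    rw [volt_left m c hne3] at h3
    have hz : ((c v (W 3).1 - c v (W 1).1 : ℤ) : ZMod (m v)) = 0 := by
      push_cast
      rw [← hq, h2, h1, e] at h3
      linear_combination -h3
    have hz2 := hun v _ hS
    rw [hz] at hz2
    have : Fact (1 < m v) := ⟨hm1 v⟩
    exact not_isUnit_zero hz2
  have hqi : ∀ i, 3 ≤ i → i ≤ l → (W i).2 v = q := by
    intro i h3
    induction i, h3 using Nat.le_induction with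
    | base => intro _; rfl
    | succ i h3 ih =>
      intro hi
      rw [hf i (by omega), Pi.add_apply, volt_zero m c (hnei i h3 (by omega)) (hnei (i+1) (by omega) hi),
        add_zero, ih (by omega)]
  intro i hi
  have hgoal : ∀ s : V → V, s (W i).1 = (W (i+1)).1 →
      ((s (W i).1, (W i).2 + volt m c (W i).1 (s (W i).1)) : V × (∀ u, ZMod (m u))) = W (i+1) := by
    intro s e
    rw [e, ← hf i hi]
  unfold F
  by_cases hcnd : (W i).1 ≠ v ∧ (W i).2 v = q
  · rw [if_pos hcnd]
    apply hgoal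
    rcases Nat.lt_or_ge i 3 with h3 | h3
    · interval_cases i
      · exact absurd hcnd.2 hq0
      · exact a2
      · exact absurd rfl hcnd.1
    · have := hw2 (i-1) (by omega)
      rw [show i - 1 + 1 = i by omega] at this
      exact this
  · rw [if_neg hcnd]
    apply hgoal
    rcases Nat.lt_or_ge i 3 with h3 | h3
    · exact hw1 i (by omega)
    · exact absurd ⟨hnei i h3 (by omega), hqi i h3 (by omega)⟩ hcnd

end

instance (k : ℕ) : NeZero (sq k) := ⟨by have := sq_pos k; omega⟩

theorem step {V : Type} [Fintype V] [DecidableEq V] {G : SimpleGraph V} {l : ℕ} (hl : 3 ≤ l)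
    (hn : l < Fintype.card V) (hG : Cub G) (hE : Ext G l) :
    ∃ (V' : Type) (_ : Fintype V') (_ : DecidableEq V') (G' : SimpleGraph V'),
      l + 1 < Fintype.card V' ∧ Cub G' ∧ Ext G' (l+1) := by
  classical
  obtain ⟨c, hlab⟩ := labels hG
  let e := Fintype.equivFin V
  let m : V → ℕ := fun u => sq (e u : ℕ)
  have hm : ∀ u, NeZero (m u) := fun u => ⟨by have := sq_pos (e u : ℕ); show sq (e u : ℕ) ≠ 0; omega⟩
  have hne : ∀ {u v : V}, v ≠ u → ((e v : ℕ) ≠ (e u : ℕ)) := by
    intro u v h h2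
    exact h (e.injective (Fin.ext h2))
  refine ⟨V × (∀ u, ZMod (m u)), inferInstance, inferInstance, cover m c G, ?_, cover_cub m c hG,
    step_aux hl hn hE hm ?_ ?_ hlab ?_ ?_⟩
  · rw [Fintype.card_prod, Fintype.card_pi]
    simp only [ZMod.card]
    have hpos : 0 < Fintype.card V := by omega
    obtain ⟨v⟩ := Fintype.card_pos_iff.1 hpos
    have h5 : 5 ≤ ∏ u, m u := by
      have h1 : m v ∣ ∏ u, m u := Finset.dvd_prod_of_mem m (mem_univ v)
      have h2 : 0 < ∏ u, m u := Finset.prod_pos fun u _ => Nat.pos_of_ne_zero (hm u).out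
      exact (sq_pos _).trans (Nat.le_of_dvd h2 h1)
    nlinarith
  · intro u v huv
    rcases lt_or_gt_of_ne (hne huv) with h | h
    · exact sq_coprime h
    · exact (sq_coprime h).symm
  · intro u
    have := sq_pos (e u : ℕ)
    show 1 < sq (e u : ℕ)
    omega
  · intro u a ha
    exact ha.unit _
  · intro u v a b hvu ha hb
    exact mix_unit ha hb (hne hvu)

end R969.HE
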